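import Pool.Agent.Zk97.CB.HDefs

/-!
# The average of the weight one of the absolutely irreducible members
-/

set_option autoImplicit false
set_option linter.all false

open Polynomial NumberField IsDedekindDomain
open Pool.Agent.R410.LW (FG bn_poly)
open Pool.Agent.R410.BS (good_le cF)
open Pool.Agent.R410.NG (Wt IsWt avg sR sT sR_eq sT_eq Asy natural_models asy_hom)
open Filter (Tendsto atTop)
open Topology
open Pool.Agent.Zk97.CB

namespace Pool.Agent.Zk93.CB

theorem wt2_abs (l n : ℕ) (F : Type) [Field F] (p : Fin l ⊕ Fin l → F[X]) : |wt2 l n F p| ≤ 1 := by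
  classical
  unfold wt2
  split_ifs
  · rw [abs_one]
  · rw [abs_zero]
    exact zero_le_one

theorem isWt_wt2 (l n : ℕ) : IsWt (wt2 l n) (fun _ => n + 1) 1 := by
  classical
  refine ⟨zero_le_one, ?_, ?_⟩
  · intro F F' _ _ e p
    unfold wt2
    rw [dec_map (e : F →+* F') (fun j => p (Sum.inl j)),
      dec0_map (e : F →+* F') (fun j => p (Sum.inr j))]
    refine if_congr (and_congr ?_ (and_congr (absIrr_iso e _) ?_)) rfl rfl
    · have h : ((l : ℕ) : F') = (e : F →+* F') ((l : ℕ) : F) := (map_natCast (e : F →+* F') l).symm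
      rw [h]
      exact map_ne_zero_iff (e : F →+* F') e.injective
    · exact not_congr (Polynomial.map_eq_zero_iff (by
        rw [coe_mapRingHom]
        exact Polynomial.map_injective _ e.injective))
  · intro F _ _ p _
    have hq : 1 ≤ (Nat.card F : ℝ) := by exact_mod_cast Nat.card_pos
    have hs : 1 ≤ √(Nat.card F : ℝ) := by rw [Real.one_le_sqrt]; exact hq
    rw [one_mul]
    exact (wt2_abs l n F p).trans hs

theorem wt2_enc {F : Type} [Field F] {l n : ℕ} {G a : F[X][X]} (hG : G.Monic) (hd : G.natDegree = l)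
    (ha : a.natDegree < l) (ha0 : a ≠ 0) (hl : ((l : ℕ) : F) ≠ 0) (h : AbsIrr G) :
    wt2 l n F (enc2 l n G a) = 1 := by
  classical
  unfold wt2
  have e1 : dec l n (fun j => enc2 l n G a (Sum.inl j)) = G := dec_enc hG hd
  have e2 : dec0 l n (fun j => enc2 l n G a (Sum.inr j)) = a := dec0_enc ha
  rw [e1, e2, if_pos ⟨hl, h, ha0⟩]

theorem t_H2 : StH2 := by
  classical
  intro k _ _ κ _ _ _ hFG e he l n hl R _ _ _ _ _ _ hk G a hG hGl hGn hal han ha0 hirr N hN S
  have hinj : Function.Injective (algebraMap R κ) := IsFractionRing.injective R κ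
  obtain ⟨D, hD, hDirr⟩ := bn_poly (A := R) (k := κ) (kb := AlgebraicClosure κ) G hG
    (by rw [hGl]; exact hl) (by
      have h := hirr (AlgebraicClosure κ) (algebraMap κ (AlgebraicClosure κ))
      rw [Polynomial.map_map, mapRingHom_comp] at h
      exact h)
  have hl0 : ((l : ℕ) : R) ≠ 0 := by
    intro h
    have h' : ((l : ℕ) : κ) = 0 := by rw [← map_natCast (algebraMap R κ), h, map_zero]
    exact hl.ne' (by exact_mod_cast h')
  obtain ⟨i, hi⟩ : ∃ i, a.coeff i ≠ 0 := by
    by_contra hcon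
    push Not at hcon
    exact ha0 (Polynomial.ext fun i => by rw [hcon i, coeff_zero])
  obtain ⟨j, hj⟩ : ∃ j, (a.coeff i).coeff j ≠ 0 := by
    by_contra hcon
    push Not at hcon
    exact hi (Polynomial.ext fun j => by rw [hcon j, coeff_zero])
  have hN'0 : D * ((l : ℕ) : R) * (a.coeff i).coeff j ≠ 0 := mul_ne_zero (mul_ne_zero hD hl0) hj
  obtain ⟨N', hN'⟩ : ∃ N' : R, N' = D * ((l : ℕ) : R) * (a.coeff i).coeff j := ⟨_, rfl⟩
  rw [← hN'] at hN'0
  have hval : ∀ (F : Type) [Field F] (φ : R →+* F), φ N' ≠ 0 →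
      wt2 l n F (fun j => (enc2 l n G a j).map φ) = 1 := by
    intro F _ φ hφ
    rw [hN', map_mul, map_mul, map_natCast] at hφ
    have e1 : (fun j => (enc2 l n G a j).map φ) =
        enc2 l n (G.map (mapRingHom φ)) (a.map (mapRingHom φ)) :=
      funext fun j => enc2_map _ _ _ _
    rw [e1]
    refine wt2_enc (hG.map _) ((hG.natDegree_map _).trans hGl) (natDegree_map_le.trans_lt hal) ?_
      (right_ne_zero_of_mul (left_ne_zero_of_mul hφ)) ?_
    · intro h0
      apply right_ne_zero_of_mul hφ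
      have h1 : ((a.map (mapRingHom φ)).coeff i).coeff j = φ ((a.coeff i).coeff j) := by
        rw [coeff_map, coe_mapRingHom, coeff_map]
      rw [← h1, h0, coeff_zero, coeff_zero]
    · intro k' _ χ
      rw [Polynomial.map_map, mapRingHom_comp]
      refine hDirr k' (χ.comp φ) ?_
      rw [RingHom.comp_apply]
      exact (map_ne_zero_iff χ χ.injective).2 (left_ne_zero_of_mul (left_ne_zero_of_mul hφ))
  obtain ⟨C, m, hC, hm, hb⟩ := good_le (R := R) (K := κ) hinj he.le hN'0
  have h3 : Asy (fun F _ _ => sT (wt2 l n) (enc2 l n G a) N' F) e 1 := by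
    refine (asy_hom hFG he R).near ⟨C, m, hC, hm, fun F _ _ hF => ?_⟩
    have hfin : Finite (R →+* F) := inferInstance
    let _ : Fintype (R →+* F) := Fintype.ofFinite _
    have hq : 1 ≤ (Nat.card F : ℝ) := by exact_mod_cast Nat.card_pos
    have e1 : sT (wt2 l n) (enc2 l n G a) N' F - (Nat.card (R →+* F) : ℝ) =
        -(Nat.card {φ : R →+* F // φ N' = 0} : ℝ) := by
      rw [sT_eq, Nat.card_eq_fintype_card, Nat.card_eq_fintype_card, Fintype.card_subtype,
        Finset.card_filter, ← Finset.card_univ, Finset.card_eq_sum_ones, Nat.cast_sum, Nat.cast_sum,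
        ← Finset.sum_sub_distrib, ← Finset.sum_neg_distrib]
      refine Finset.sum_congr rfl fun φ _ => ?_
      by_cases h : φ N' = 0
      · rw [if_neg (not_not.2 h), if_pos h]
        simp
      · rw [if_pos h, if_neg h, hval F φ h]
        simp
    rw [e1, abs_neg, abs_of_nonneg (Nat.cast_nonneg _)]
    have e2 : √(Nat.card F : ℝ) ≤ (Nat.card F : ℝ) := by
      rw [Real.sqrt_le_left (by linarith)]
      nlinarith
    exact (mul_le_mul_of_nonneg_left e2 (Nat.cast_nonneg _)).trans (hb F hF).2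
  obtain ⟨κ', i1, L, i2, i3, a', ha', C3, N3, hC3, hN3, b3⟩ := h3
  refine natural_models (isWt_wt2 l n) (e := e) he.le rfl (fun _ => rfl)
    (fun j => enc2_deg hGn han j) hN
    (N' := N') hN'0 L a' ha' ⟨C, m, hC, hm, ?_⟩ ⟨C3, N3, hC3, hN3, fun F _ _ hF => b3 F hF⟩ S
  intro F _ _ hF ψ
  have hfin : Finite (R →+* F) := inferInstance
  let _ : Fintype (R →+* F) := Fintype.ofFinite _
  refine le_trans ?_ (hb F hF).1
  rw [sR_eq, Nat.card_eq_fintype_card, ← Finset.card_univ, Finset.card_eq_sum_ones, Nat.cast_sum]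
  refine (Finset.abs_sum_le_sum_abs _ _).trans (Finset.sum_le_sum fun φ _ => ?_)
  rw [Nat.cast_one]
  split_ifs
  · exact wt2_abs l n F _
  · rw [abs_zero]
    exact zero_le_one

end Pool.Agent.Zk93.CB
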